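import Pool.Agent.H82.G4.Targets3
import Pool.Agent.H90.G.REC

/-!
Board g4_modules, module CMD: pieces in caps, translated in space, stay in the class.
-/

set_option autoImplicit false

namespace Pool.Agent.H3.G4.CMD

open Pool.Agent.H82.G4 Pool.Agent.H83.G MeasureTheory Set
open scoped ENNReal NNReal RealInnerProductSpace

section

variable {m : ℕ}

theorem e_add (x y : ℝ) : e (x + y) = e x * e y := by
  unfold e
  rw [← Complex.exp_add]
  congr 1
  push_cast
  ring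

theorem norm_e (x : ℝ) : ‖e x‖ = 1 := by
  unfold e
  exact Complex.norm_exp_ofReal_mul_I _

theorem ph_add (z y ζ : Z m) : ph (z + y) ζ = ph z ζ + ph y ζ := by
  unfold ph
  simp only [Prod.fst_add, Prod.snd_add, inner_add_left]
  ring

theorem contDiff_e : ContDiff ℝ (⊤ : ℕ∞) e := by
  unfold e
  have h1 : ContDiff ℝ (⊤ : ℕ∞) (fun x : ℝ => ((2 * Real.pi * x : ℝ) : ℂ)) :=
    Complex.ofRealCLM.contDiff.comp (contDiff_const.mul contDiff_id)
  exact (h1.mul contDiff_const).cexp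

theorem contDiff_ph (y : Z m) : ContDiff ℝ (⊤ : ℕ∞) (fun ζ : Z m => ph y ζ) := by
  unfold ph
  have h1 : ContDiff ℝ (⊤ : ℕ∞) (fun ζ : Z m => ⟪y.2.1, ζ.2.1⟫) :=
    contDiff_const.inner ℝ (contDiff_fst.comp contDiff_snd)
  exact ((contDiff_const.mul contDiff_fst).add h1).add
    (contDiff_const.mul (contDiff_snd.comp contDiff_snd))

theorem haar1 (m : ℕ) : (volume : Measure (E m × ℝ)).IsAddHaarMeasure :=
  Measure.prod.instIsAddHaarMeasure (volume : Measure (E m)) (volume : Measure ℝ)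

theorem haar2 (m : ℕ) : (volume : Measure (Z m)).IsAddHaarMeasure :=
  have := haar1 m
  Measure.prod.instIsAddHaarMeasure (volume : Measure ℝ) (volume : Measure (E m × ℝ))

theorem TC_mod {G : Z m → ℂ} (hG : TC G) (y : Z m) : TC (fun ζ => e (ph y ζ) * G ζ) := by
  refine ⟨(contDiff_e.comp (contDiff_ph y)).mul hG.1, ?_⟩
  exact hG.2.mul_left

theorem TF_mod (G : Z m → ℂ) (y z : Z m) :
    TF (fun ζ => e (ph y ζ) * G ζ) z = TF G (z + y) := by
  unfold TF
  refine integral_congr_ae (Filter.Eventually.of_forall fun ζ => ?_)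
  simp only
  rw [ph_add, e_add, mul_assoc]

theorem TP_mod (φ : E m → ℂ) (η : E m) (s : ℝ) (G : Z m → ℂ) (y z : Z m) :
    TP φ η s (fun ζ => e (ph y ζ) * G ζ) z = TP φ η s G (z + y) := by
  unfold TP
  rw [← TF_mod]
  congr 1
  funext ζ
  ring

theorem Cls_mod {L : ℕ} {κ R A : ℝ} {G : Z m → ℂ} (hG : Cls L κ R A G) (y : Z m) :
    Cls L κ R A (fun ζ => e (ph y ζ) * G ζ) := by
  refine ⟨TC_mod hG.1 y, fun ζ hζ => hG.2.1 ζ (right_ne_zero_of_mul hζ), ?_⟩
  intro φ hφ η s r z₀ hs hs1 hr hr1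
  have h1 := hG.2.2 φ hφ η s r (z₀ + y) hs hs1 hr hr1
  refine le_of_eq_of_le ?_ h1
  have := haar2 m
  have h2 := (measurePreserving_add_right (volume : Measure (Z m)) y).setLIntegral_comp_preimage_emb
    (MeasurableEquiv.addRight y).measurableEmbedding
    (fun z => ‖TP φ η s G z‖ₑ ^ 2) (pl η s r (z₀ + y))
  rw [← h2]
  have h3 : (fun x : Z m => x + y) ⁻¹' pl η s r (z₀ + y) = pl η s r z₀ := by
    ext z
    simp only [mem_preimage, pl, mem_ofPred_eq, add_sub_add_right_eq_sub]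
  rw [h3]
  simp only [TP_mod]

end

/-- CMD: pieces in caps, translated in space, stay in the class -/
theorem pf_CMD (hCPC : T_CPC) : T_CMD := by
  intro m L β K hβ hK
  obtain ⟨C, hC, hcpc⟩ := hCPC m L β K hβ hK
  refine ⟨C, hC, ?_⟩
  intro κ R A G k y hκ hκ1 hR hA hk hG
  have h1 := hcpc κ R A G (ctr K⁻¹ k) hκ hκ1 hR hA
    (Pool.Agent.H90.G.ctr_norm_le K hK k hk) hG
  refine ⟨Cls_mod h1 y, fun z => ?_, ?_⟩
  · exact TF_mod _ y z
  · simp only [norm_mul (e _), norm_e, one_mul]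
    exact Pool.Agent.H90.G.int_cp_le hβ hG.1 _ _ h1.1

end Pool.Agent.H3.G4.CMD
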