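import Pool.Agent.H82.G4.Targets3
import Pool.Agent.H90.G.REC

/-!
Board g4_modules, module W4: the four-broad part.
-/

set_option autoImplicit false

namespace Pool.Agent.H3.G4.W4

open Pool.Agent.H82.G4 Pool.Agent.H83.G MeasureTheory Set
open Pool.Agent.H22.G4 (nv Ind Bdx)
open Pool.Agent.H90.G (Rg_mono ctr_norm_le pow_sum)
open scoped ENNReal NNReal RealInnerProductSpace

section

variable {m : ℕ}

/-- the sum of the energies near the balls -/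
theorem sum_Er4 {β : E m → ℂ} {L : ℕ} {δ CE κ R A I₀ : ℝ}
    (hCE : 0 < CE) (hκ1 : κ ≤ 1 / 2) (hR1 : 1 ≤ R) (hI₀ : 0 ≤ I₀)
    (hens : ∀ (R : ℝ) (G : Z m → ℂ), 1 ≤ R → TC G →
      (∀ ζ, G ζ ≠ 0 → ζ ∈ Rg m (1 / 2) R⁻¹) →
      ∑' j : Zi m, Er (m + 3) β R δ G ((R / ((m : ℝ) + 1)) • zc j) ≤
        ENNReal.ofReal (CE * R ^ (lo m * δ) * ∫ ζ, ‖G ζ‖ ^ 2))
    (G : Fin 4 → Z m → ℂ) (hcls : ∀ i, Cls L κ R A (G i))
    (hI : ∀ i, ∫ ζ, ‖G i ζ‖ ^ 2 ≤ I₀) (J : Finset (Zi m)) :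
    ∑ l ∈ J, (∑ i, Er (m + 3) β R δ (G i) ((R / ((m : ℝ) + 1)) • zc l)).toReal ≤
      4 * (CE * R ^ (lo m * δ) * I₀) := by
  have hR0 : 0 < R := by linarith
  set Q : ℝ := CE * R ^ (lo m * δ) * I₀ with hQ
  have hQ0 : 0 ≤ Q := by positivity
  have h1 : ∀ i, ∑' j : Zi m, Er (m + 3) β R δ (G i) ((R / ((m : ℝ) + 1)) • zc j) ≤
      ENNReal.ofReal Q := by
    intro i
    have hc := hcls i
    have h2 := hens R (G i) hR1 hc.1 fun ζ hζ =>
      Rg_mono hκ1 (inv_nonneg.2 hR0.le) (hc.2.1 ζ hζ)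
    refine h2.trans (ENNReal.ofReal_le_ofReal ?_)
    exact mul_le_mul_of_nonneg_left (hI i) (by positivity)
  have h2 : ∑ l ∈ J, ∑ i, Er (m + 3) β R δ (G i) ((R / ((m : ℝ) + 1)) • zc l) ≤
      ENNReal.ofReal (4 * Q) := by
    rw [Finset.sum_comm]
    calc ∑ i, ∑ l ∈ J, Er (m + 3) β R δ (G i) ((R / ((m : ℝ) + 1)) • zc l)
        ≤ ∑ i : Fin 4, ENNReal.ofReal Q :=
          Finset.sum_le_sum fun i _ => (ENNReal.sum_le_tsum J).trans (h1 i)
      _ = ENNReal.ofReal (4 * Q) := by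
          rw [Finset.sum_const, Finset.card_univ, Fintype.card_fin, nsmul_eq_mul,
            ENNReal.ofReal_mul (p := 4) (by norm_num)]
          norm_num
  have h3 : ∀ l ∈ J, ∑ i, Er (m + 3) β R δ (G i) ((R / ((m : ℝ) + 1)) • zc l) ≠ ⊤ := by
    intro l hl
    refine ne_top_of_le_ne_top ENNReal.ofReal_ne_top (le_trans ?_ h2)
    exact Finset.single_le_sum (f := fun l => ∑ i, Er (m + 3) β R δ (G i)
      ((R / ((m : ℝ) + 1)) • zc l)) (fun _ _ => by positivity) hl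
  rw [← ENNReal.toReal_sum h3]
  refine ENNReal.toReal_le_of_le_ofReal (by positivity) h2

theorem Rg_norm {κ R : ℝ} (hκ : 0 ≤ κ) (hκ1 : κ ≤ 1 / 2) (hR : 1 ≤ R) {ζ : Z m}
    (h : ζ ∈ Rg m κ R⁻¹) : ‖ζ‖ ≤ 13 := by
  obtain ⟨h1, h2, h3, h4⟩ := h
  have hz : 1 / 2 ≤ ζ.1 := by linarith
  have hz0 : 0 < ζ.1 := by linarith
  have h5 : ‖ζ.2.1‖ ≤ 3 / 2 * ζ.1 := h3.trans (mul_le_mul_of_nonneg_right (by linarith) hz0.le)
  have h6 : ‖ζ.2.1‖ ^ 2 / ζ.1 ≤ 9 / 4 * ζ.1 := by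
    rw [div_le_iff₀ hz0]
    nlinarith [norm_nonneg ζ.2.1]
  have h7 : (1 + κ) * R⁻¹ ≤ 3 / 2 := by
    have : R⁻¹ ≤ 1 := inv_le_one_of_one_le₀ hR
    have : 0 ≤ R⁻¹ := by positivity
    nlinarith
  have h8 : |ζ.2.2| ≤ 13 := by
    have h9 := abs_sub_abs_le_abs_sub ζ.2.2 (‖ζ.2.1‖ ^ 2 / ζ.1)
    have h10 : |‖ζ.2.1‖ ^ 2 / ζ.1| = ‖ζ.2.1‖ ^ 2 / ζ.1 := abs_of_nonneg (by positivity)
    linarith
  refine norm_prod_le_iff.2 ⟨?_, norm_prod_le_iff.2 ⟨?_, ?_⟩⟩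
  · rw [Real.norm_of_nonneg hz0.le]
    linarith
  · linarith
  · exact h8

/-- the number of levels -/
theorem levels (CS δ : ℝ) (hCS : 1 ≤ CS) (hδ : 0 < δ) : ∃ C : ℝ, 0 < C ∧ ∀ R : ℝ, 1 ≤ R →
    ((⌊Real.logb 2 (CS * R ^ ((m : ℝ) / 2))⌋₊ + 1 : ℕ) : ℝ) ≤ C * R ^ δ := by
  have hl2 : 0 < Real.log 2 := Real.log_pos (by norm_num)
  have hlC : 0 ≤ Real.log CS := Real.log_nonneg hCS
  refine ⟨(Real.log CS + (m : ℝ) / 2 / δ) / Real.log 2 + 1, by positivity, fun R hR => ?_⟩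
  have hR0 : 0 < R := by linarith
  have h1 : 1 ≤ R ^ ((m : ℝ) / 2) := Real.one_le_rpow hR (by positivity)
  have h2 : 0 ≤ Real.logb 2 (CS * R ^ ((m : ℝ) / 2)) :=
    Real.logb_nonneg (by norm_num) (one_le_mul_of_one_le_of_one_le hCS h1)
  have h3 := Nat.floor_le h2
  have h4 : Real.logb 2 (CS * R ^ ((m : ℝ) / 2)) =
      (Real.log CS + (m : ℝ) / 2 * Real.log R) / Real.log 2 := by
    rw [Real.logb, Real.log_mul (by positivity) (by positivity), Real.log_rpow hR0]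
  have h5 : Real.log R ≤ R ^ δ / δ := Real.log_le_rpow_div hR0.le hδ
  have h6 : 1 ≤ R ^ δ := Real.one_le_rpow hR hδ.le
  push_cast
  calc (⌊Real.logb 2 (CS * R ^ ((m : ℝ) / 2))⌋₊ : ℝ) + 1
      ≤ (Real.log CS + (m : ℝ) / 2 * (R ^ δ / δ)) / Real.log 2 + 1 := by
        rw [h4] at h3
        have h7 : (Real.log CS + (m : ℝ) / 2 * Real.log R) / Real.log 2 ≤
            (Real.log CS + (m : ℝ) / 2 * (R ^ δ / δ)) / Real.log 2 := by
          refine div_le_div_of_nonneg_right ?_ hl2.le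
          have := mul_le_mul_of_nonneg_left h5 (by positivity : (0 : ℝ) ≤ (m : ℝ) / 2)
          linarith
        rw [h4]
        linarith
    _ ≤ (Real.log CS * R ^ δ + (m : ℝ) / 2 * (R ^ δ / δ)) / Real.log 2 + 1 * R ^ δ := by
        refine add_le_add (div_le_div_of_nonneg_right (add_le_add ?_ le_rfl) hl2.le) (by linarith)
        nlinarith
    _ = _ := by
        field_simp

/-- the constants -/
theorem fin_num4 (P CL CB Ck Ax R3 CE Rlo Rd I0 S T CT C₂ : ℝ)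
    (hCT : CT = P * (CL * (CB * Ck * (4 * CE)))) (hCTC : CT ≤ C₂) (hC₂ : 0 ≤ C₂)
    (h : Rd * Rlo * S ≤ T) (h0 : 0 ≤ Rd * Rlo * S) (hA : 0 ≤ Ax * R3 * I0) :
    CL * Rd * (P * (CB * S * (Ck * Ax) * R3 * (4 * (CE * Rlo * I0)))) ≤
      C₂ * T * (Ax * R3 * I0) := by
  have h1 : CL * Rd * (P * (CB * S * (Ck * Ax) * R3 * (4 * (CE * Rlo * I0)))) =
      CT * (Rd * Rlo * S) * (Ax * R3 * I0) := by
    rw [hCT]
    ring
  rw [h1]
  exact mul_le_mul_of_nonneg_right (mul_le_mul hCTC h h0 hC₂) hA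

end

/-- W4: the four-broad part -/
theorem pf_W4 (hBROq : T_BROq) (hCMD : T_CMD) (hENS : T_ENS) (hSPK : T_SPK) (hSPW : T_SPW)
    (hPLN : T_PLN) (hWT3 : T_WT3) : T_W4 := by
  classical
  intro m L x β K c₀ δ ε₀ ε₁ C₃ hm hx0 hx4 hmx hTEN hL hβ hK hc₀ hδ hδ1 hε₀ hε₀1 hε₁
  have hK0 : 0 < K := by linarith
  obtain ⟨CK, hCK, hcmd⟩ := hCMD m L β K hβ hK
  have hCK0 : 0 < CK := by linarith
  obtain ⟨CB, hCB, hbro⟩ := hBROq m L x β K c₀ δ ε₀ ε₁ 1 hm hx0 hx4 hmx hTEN hL hβ hK hc₀ hδ hδ1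
    hε₀ hε₀1 hε₁ one_pos
  obtain ⟨CE, hCE, hens⟩ := hENS m (m + 3) β δ hβ hδ.le le_rfl
  obtain ⟨CS, hCS, hspk⟩ := hSPK m L β hβ
  obtain ⟨CW, hspw⟩ := hSPW m 0 13 2 1 (by norm_num) (by norm_num)
  have hwt5 : ∀ x : Z m, ∃ l : Zi m, ‖x - zc l‖ ≤ (m : ℝ) + 1 :=
    (hWT3 m (m + 3) le_rfl).choose_spec.2.2.2.2
  obtain ⟨CL, hCL, hlev⟩ := levels (m := m) (CS + 1) δ (by linarith) hδ
  have hCB0 : 0 < CB := by linarith
  have hlo : 0 < lo m := by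
    unfold lo
    positivity
  have hlolb : 1 + lo m ≤ lb m := by
    unfold lo lb
    have : (0 : ℝ) ≤ m := Nat.cast_nonneg m
    nlinarith
  have hlb : 0 < lb m := by linarith
  set P : ℝ := 2 ^ (2 + x) with hP
  have hP0 : 0 < P := by positivity
  set CT : ℝ := P * (CL * (CB * CK ^ x * (4 * CE))) with hCT
  have hCT0 : 0 ≤ CT := by positivity
  set CQ : ℝ := CK ^ x * (CW : ℝ) with hCQ
  have hCQ0 : 0 ≤ CQ := by positivity
  refine ⟨CB + CT + CQ, by linarith, ?_⟩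
  intro κ R A g G k y Y hκ hκ1 hR hA hg hB hG hk hsep hInd _hy hY
  have hR1 : 1 ≤ R := by linarith
  have hR0 : 0 < R := by linarith
  have hCBR : CB ≤ R := by linarith
  have hκ2 : κ ≤ 1 / 2 := by linarith
  have hI0 : 0 ≤ ∫ ζ, ‖G ζ‖ ^ 2 := integral_nonneg fun ζ => by positivity
  set I₀ : ℝ := ∫ ζ, ‖G ζ‖ ^ 2 with hI₀
  set Gi : Fin 4 → Z m → ℂ := fun i ζ =>
    e (ph (y i) ζ) * (cp β (ctr K⁻¹ (k i)) K⁻¹ ζ * G ζ) with hGi
  have hcmd' := fun i => hcmd κ R A G (k i) (y i) hκ hκ2 hR1 hA (hk i) hG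
  have hcls : ∀ i, Cls L κ R (CK * A) (Gi i) := fun i => (hcmd' i).1
  have hTF : ∀ i z, TF (Gi i) z = uk β K G (k i) (z + y i) := fun i => (hcmd' i).2.1
  have hInt : ∀ i, ∫ ζ, ‖Gi i ζ‖ ^ 2 ≤ I₀ := fun i => (hcmd' i).2.2
  set A' : ℝ := CK * A with hA'
  have hA'0 : 0 < A' := by positivity
  -- the minimum
  have hmin : ∀ z : Z m, ∃ r : ℝ, 0 ≤ r ∧ (∀ i, r ≤ ‖TF (Gi i) z‖) ∧
      (⨅ i, ‖uk β K G (k i) (z + y i)‖ₑ) ≤ ENNReal.ofReal r := by
    intro z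
    obtain ⟨i₀, hi₀⟩ := Finite.exists_min (fun i => ‖TF (Gi i) z‖)
    refine ⟨‖TF (Gi i₀) z‖, norm_nonneg _, hi₀, ?_⟩
    refine (iInf_le _ i₀).trans (le_of_eq ?_)
    rw [← hTF, ofReal_norm]
  choose h h0 h1 h2 using hmin
  set S0 : ℝ := R ^ (ε₁ + lb m * δ) * g + R ^ (lb m * (δ + ε₀)) with hS0
  set S1 : ℝ := R ^ (ε₁ + 2 * lb m * δ) * g + R ^ (2 * lb m * (δ + ε₀)) with hS1
  have hS0p : 0 ≤ S0 := by positivity
  have hS1p : 1 ≤ S1 := by
    have h3 : 1 ≤ R ^ (2 * lb m * (δ + ε₀)) := Real.one_le_rpow hR1 (by positivity)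
    have h4 : 0 ≤ R ^ (ε₁ + 2 * lb m * δ) * g := by positivity
    linarith
  -- the low part
  have hlow : ∑ z ∈ Y.filter (fun z => h z < A'), h z ^ (2 + x) ≤
      CQ * S1 * (A ^ x * R ^ (m * x / 2 - 1) * I₀) := by
    have hsup : ∀ ζ, Gi 0 ζ ≠ 0 → ‖ζ‖ ≤ 13 := fun ζ hζ =>
      Rg_norm hκ hκ2 hR1 ((hcls 0).2.1 ζ hζ)
    have h3 := hspw (Gi 0) Y (fun _ => 1) (hcls 0).1 hsup hY measurable_const (by
      intro z z'
      simp)
    have h4 : ∑ z ∈ Y, ‖TF (Gi 0) z‖ ^ 2 ≤ (CW : ℝ) * I₀ := by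
      have h5 : ∑ z ∈ Y, ‖TF (Gi 0) z‖ₑ ^ (2 : ℝ) * 1 =
          ENNReal.ofReal (∑ z ∈ Y, ‖TF (Gi 0) z‖ ^ 2) := by
        rw [ENNReal.ofReal_sum_of_nonneg fun _ _ => by positivity]
        refine Finset.sum_congr rfl fun z _ => ?_
        rw [mul_one, ENNReal.rpow_two, ← ofReal_norm,
          ENNReal.ofReal_pow (norm_nonneg _)]
      have h6 : (CW : ℝ≥0∞) * ∫⁻ z, ‖TF (Gi 0) z‖ₑ ^ (2 : ℝ) * 1 =
          ENNReal.ofReal ((CW : ℝ) * ∫ ζ, ‖Gi 0 ζ‖ ^ 2) := by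
        simp only [mul_one, ENNReal.rpow_two]
        rw [(hPLN m (Gi 0) (hcls 0).1).1, ENNReal.ofReal_mul CW.coe_nonneg,
          ENNReal.ofReal_coe_nnreal]
      rw [h5, h6] at h3
      have h7 : 0 ≤ ∫ ζ, ‖Gi 0 ζ‖ ^ 2 := integral_nonneg fun ζ => by positivity
      rw [ENNReal.ofReal_le_ofReal_iff (by positivity)] at h3
      exact h3.trans (mul_le_mul_of_nonneg_left (hInt 0) CW.coe_nonneg)
    calc ∑ z ∈ Y.filter (fun z => h z < A'), h z ^ (2 + x)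
        ≤ ∑ z ∈ Y.filter (fun z => h z < A'), A' ^ x * ‖TF (Gi 0) z‖ ^ 2 := by
          refine Finset.sum_le_sum fun z hz => ?_
          have hzA : h z < A' := (Finset.mem_filter.1 hz).2
          rw [Real.rpow_add_of_nonneg (h0 z) (by norm_num) hx0.le, Real.rpow_two, mul_comm]
          refine mul_le_mul (Real.rpow_le_rpow (h0 z) hzA.le hx0.le) ?_ (by positivity)
            (by positivity)
          exact pow_le_pow_left₀ (h0 z) (h1 z 0) 2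
      _ ≤ ∑ z ∈ Y, A' ^ x * ‖TF (Gi 0) z‖ ^ 2 :=
          Finset.sum_le_sum_of_subset_of_nonneg (Finset.filter_subset _ _)
            fun _ _ _ => by positivity
      _ = A' ^ x * ∑ z ∈ Y, ‖TF (Gi 0) z‖ ^ 2 := by rw [Finset.mul_sum]
      _ ≤ A' ^ x * ((CW : ℝ) * I₀) := mul_le_mul_of_nonneg_left h4 (by positivity)
      _ = CQ * 1 * (A ^ x * 1 * I₀) := by
          rw [hA', Real.mul_rpow hCK0.le hA.le, hCQ]
          ring
      _ ≤ _ := by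
          have h3 : 1 ≤ R ^ (m * x / 2 - 1) := Real.one_le_rpow hR1 (by linarith)
          refine mul_le_mul (mul_le_mul_of_nonneg_left hS1p hCQ0) ?_ (by positivity)
            (by positivity)
          exact mul_le_mul_of_nonneg_right (mul_le_mul_of_nonneg_left h3 (by positivity)) hI0
  -- balls
  have hJ : ∀ z : Z m, ∃ l : Zi m, ‖z - (R / ((m : ℝ) + 1)) • zc l‖ ≤ R := by
    intro z
    have hm1 : (0 : ℝ) < (m : ℝ) + 1 := by positivity
    obtain ⟨l, hl⟩ := hwt5 ((R / ((m : ℝ) + 1))⁻¹ • z)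
    refine ⟨l, ?_⟩
    have h1 : z - (R / ((m : ℝ) + 1)) • zc l =
        (R / ((m : ℝ) + 1)) • ((R / ((m : ℝ) + 1))⁻¹ • z - zc l) := by
      rw [smul_sub, smul_smul, mul_inv_cancel₀ (by positivity), one_smul]
    rw [h1, norm_smul, Real.norm_of_nonneg (by positivity)]
    calc R / ((m : ℝ) + 1) * ‖(R / ((m : ℝ) + 1))⁻¹ • z - zc l‖
        ≤ R / ((m : ℝ) + 1) * ((m : ℝ) + 1) := mul_le_mul_of_nonneg_left hl (by positivity)
      _ = R := by field_simp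
  choose jj hjj using hJ
  -- levels
  set Yh : Finset (Z m) := Y.filter (fun z => ¬ h z < A') with hYh
  set nn : Z m → ℕ := fun z => ⌊Real.logb 2 (h z / A')⌋₊ with hnn
  set N₁ : ℕ := ⌊Real.logb 2 ((CS + 1) * R ^ ((m : ℝ) / 2))⌋₊ + 1 with hN₁
  have hlv : ∀ z ∈ Yh, A' * 2 ^ nn z ≤ h z ∧ h z ≤ 2 * (A' * 2 ^ nn z) ∧ nn z < N₁ := by
    intro z hz
    have hzA : A' ≤ h z := not_lt.1 (Finset.mem_filter.1 hz).2
    have hq : 1 ≤ h z / A' := (one_le_div hA'0).2 hzA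
    have hq0 : 0 < h z / A' := by linarith
    have hlg : 0 ≤ Real.logb 2 (h z / A') := Real.logb_nonneg (by norm_num) hq
    have hf1 := Nat.floor_le hlg
    have hf2 := Nat.lt_floor_add_one (Real.logb 2 (h z / A'))
    have hf3 := (Real.le_logb_iff_rpow_le (by norm_num) hq0).1 hf1
    have hf4 := (Real.logb_lt_iff_lt_rpow (by norm_num) hq0).1 hf2
    rw [Real.rpow_natCast] at hf3
    rw [Real.rpow_add_one (by norm_num), Real.rpow_natCast] at hf4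
    refine ⟨?_, ?_, ?_⟩
    · have := (le_div_iff₀ hA'0).1 hf3
      linarith
    · have := (div_lt_iff₀ hA'0).1 hf4
      linarith
    · have h3 := (hspk κ R A' (Gi 0) hκ hκ2 hR1 hA'0 (hcls 0)).2 z
      have h4 : h z / A' ≤ (CS + 1) * R ^ ((m : ℝ) / 2) := by
        rw [div_le_iff₀ hA'0]
        have h5 : 0 ≤ A' * R ^ ((m : ℝ) / 2) := by positivity
        nlinarith [h1 z 0]
      rw [hN₁, Nat.lt_succ_iff]
      exact Nat.floor_le_floor (Real.logb_le_logb_of_le (by norm_num) hq0 h4)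
  set JF : Finset (Zi m) := Yh.image jj with hJF
  set MM : ℝ := CB * S0 * A' ^ x * R ^ (m * x / 2 - 1) with hMM
  have hMM0 : 0 ≤ MM := by positivity
  have hB2' : Bdx m L x (κ + CB * R ^ (-δ)) (R ^ (1 - ε₀)) g := by
    intro A H G X hA hH hG hX hXH
    refine hB A H G X hA hH ⟨hG.1, fun ζ hζ => ?_, hG.2.2⟩ hX hXH
    refine Rg_mono ?_ (by positivity) (hG.2.1 ζ hζ)
    have : CB * R ^ (-δ) ≤ (CB + CT + CQ) * R ^ (-δ) :=
      mul_le_mul_of_nonneg_right (by linarith) (by positivity)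
    linarith
  -- one level and one ball
  have hone : ∀ n ∈ Finset.range N₁, ∀ l ∈ JF,
      ∑ z ∈ Yh.filter (fun z => (nn z, jj z) = (n, l)), h z ^ (2 + x) ≤
      P * (MM * (∑ i, Er (m + 3) β R δ (Gi i) ((R / ((m : ℝ) + 1)) • zc l)).toReal) := by
    intro n hn l hl
    set X : Finset (Z m) := Yh.filter (fun z => (nn z, jj z) = (n, l)) with hX
    have hXn : ∀ z ∈ X, A' * 2 ^ n ≤ h z ∧ h z ≤ 2 * (A' * 2 ^ n) := by
      intro z hz
      obtain ⟨hzY, hze⟩ := Finset.mem_filter.1 hz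
      rw [Prod.ext_iff] at hze
      have h3 : nn z = n := hze.1
      have h4 := hlv z hzY
      rw [h3] at h4
      exact ⟨h4.1, h4.2.1⟩
    have hH0 : 0 < A' * 2 ^ n := by positivity
    have h3 : (X.card : ℝ) * (A' * 2 ^ n) ^ (2 + x) ≤
        MM * (∑ i, Er (m + 3) β R δ (Gi i) ((R / ((m : ℝ) + 1)) • zc l)).toReal := by
      refine hbro κ R A' (A' * 2 ^ n) g Gi
        (fun i => ctr K⁻¹ (k i)) ((R / ((m : ℝ) + 1)) • zc l) X hκ hκ1 hCBR hA'0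
        hH0 ?_ hg hcls ?_ ?_ hsep hInd ?_ ?_ ?_ hB2'
      · rw [one_mul]
        exact le_mul_of_one_le_right hA'0.le (one_le_pow₀ (by norm_num))
      · exact fun i => ctr_norm_le K hK (k i) (hk i)
      · intro i ζ hζ
        have h1 : β ((K⁻¹)⁻¹ • (ζ.1⁻¹ • ζ.2.1 - ctr K⁻¹ (k i))) ≠ 0 := by
          intro h2
          apply hζ
          change e (ph (y i) ζ) * (cp β (ctr K⁻¹ (k i)) K⁻¹ ζ * G ζ) = 0
          unfold cp
          rw [h2, zero_mul, mul_zero]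
        have h2 : ‖(K⁻¹)⁻¹ • (ζ.1⁻¹ • ζ.2.1 - ctr K⁻¹ (k i))‖ < 1 := by
          by_contra hcon
          push Not at hcon
          exact h1 (hβ.2.1 _ hcon)
        rw [norm_smul, inv_inv, Real.norm_of_nonneg hK0.le] at h2
        rw [le_div_iff₀ hK0, mul_comm]
        exact h2.le
      · intro z hz z' hz' hne
        exact hY z (Finset.mem_filter.1 (Finset.mem_filter.1 hz).1).1 z'
          (Finset.mem_filter.1 (Finset.mem_filter.1 hz').1).1 hne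
      · intro z hz
        obtain ⟨hzb, hze⟩ := Finset.mem_filter.1 hz
        rw [Prod.ext_iff] at hze
        have h1 : jj z = l := hze.2
        rw [← h1]
        exact hjj z
      · intro z hz i
        exact (hXn z hz).1.trans (h1 z i)
    calc ∑ z ∈ X, h z ^ (2 + x) ≤ ∑ z ∈ X, (2 * (A' * 2 ^ n)) ^ (2 + x) :=
          Finset.sum_le_sum fun z hz => Real.rpow_le_rpow (h0 z) (hXn z hz).2 (by linarith)
      _ = P * ((X.card : ℝ) * (A' * 2 ^ n) ^ (2 + x)) := by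
          rw [Finset.sum_const, nsmul_eq_mul, Real.mul_rpow (by norm_num) hH0.le, hP]
          ring
      _ ≤ _ := mul_le_mul_of_nonneg_left h3 hP0.le
  have hsum : ∑ z ∈ Yh, h z ^ (2 + x) = ∑ n ∈ Finset.range N₁, ∑ l ∈ JF,
      ∑ z ∈ Yh.filter (fun z => (nn z, jj z) = (n, l)), h z ^ (2 + x) := by
    have hmap : ∀ z ∈ Yh, (nn z, jj z) ∈ Finset.range N₁ ×ˢ JF := by
      intro z hz
      rw [Finset.mem_product]
      exact ⟨Finset.mem_range.2 (hlv z hz).2.2, Finset.mem_image_of_mem _ hz⟩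
    rw [← Finset.sum_product']
    exact (Finset.sum_fiberwise_of_maps_to hmap _).symm
  have hhigh : ∑ z ∈ Yh, h z ^ (2 + x) ≤
      (CB + CT) * S1 * (A ^ x * R ^ (m * x / 2 - 1) * I₀) := by
    rw [hsum]
    calc ∑ n ∈ Finset.range N₁, ∑ l ∈ JF,
          ∑ z ∈ Yh.filter (fun z => (nn z, jj z) = (n, l)), h z ^ (2 + x)
        ≤ ∑ n ∈ Finset.range N₁, P * (MM * (4 * (CE * R ^ (lo m * δ) * I₀))) := by
          refine Finset.sum_le_sum fun n hn => ?_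
          refine (Finset.sum_le_sum fun l hl => hone n hn l hl).trans ?_
          rw [← Finset.mul_sum, ← Finset.mul_sum]
          refine mul_le_mul_of_nonneg_left (mul_le_mul_of_nonneg_left ?_ hMM0) hP0.le
          exact sum_Er4 hCE hκ2 hR1 hI0 hens Gi hcls hInt JF
      _ = (N₁ : ℝ) * (P * (MM * (4 * (CE * R ^ (lo m * δ) * I₀)))) := by
          rw [Finset.sum_const, Finset.card_range, nsmul_eq_mul]
      _ ≤ CL * R ^ δ * (P * (MM * (4 * (CE * R ^ (lo m * δ) * I₀)))) :=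
          mul_le_mul_of_nonneg_right (hlev R hR1) (by positivity)
      _ ≤ _ := by
          rw [hMM, hA', Real.mul_rpow hCK0.le hA.le]
          refine fin_num4 P CL CB (CK ^ x) (A ^ x) (R ^ (m * x / 2 - 1)) CE (R ^ (lo m * δ))
            (R ^ δ) I₀ S0 S1 CT (CB + CT) hCT (by linarith) (by linarith) ?_ (by positivity)
            (by positivity)
          have h3 := pow_sum R (1 + lo m) (lb m) δ ε₀ ε₁ g hR1 hlolb hlb.le hδ.le hε₀.le
            (by linarith)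
          rw [← Real.rpow_add hR0]
          have h4 : δ + lo m * δ = (1 + lo m) * δ := by ring
          rw [h4]
          exact h3
  -- the end
  have hreal : ∑ z ∈ Y, h z ^ (2 + x) ≤
      (CB + CT + CQ) * S1 * A ^ x * R ^ (m * x / 2 - 1) * I₀ := by
    have h3 := Finset.sum_filter_add_sum_filter_not Y (fun z => h z < A')
      (fun z => h z ^ (2 + x))
    rw [← h3]
    calc _ ≤ CQ * S1 * (A ^ x * R ^ (m * x / 2 - 1) * I₀) +
          (CB + CT) * S1 * (A ^ x * R ^ (m * x / 2 - 1) * I₀) := add_le_add hlow hhigh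
      _ = _ := by ring
  calc ∑ z ∈ Y, (⨅ i, ‖uk β K G (k i) (z + y i)‖ₑ) ^ (2 + x)
      ≤ ∑ z ∈ Y, ENNReal.ofReal (h z ^ (2 + x)) := by
        refine Finset.sum_le_sum fun z _ => ?_
        rw [← ENNReal.ofReal_rpow_of_nonneg (h0 z) (by linarith)]
        exact ENNReal.rpow_le_rpow (h2 z) (by linarith)
    _ = ENNReal.ofReal (∑ z ∈ Y, h z ^ (2 + x)) :=
        (ENNReal.ofReal_sum_of_nonneg fun z _ => Real.rpow_nonneg (h0 z) _).symm
    _ ≤ _ := ENNReal.ofReal_le_ofReal hreal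

end Pool.Agent.H3.G4.W4
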